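import Pool.Agent.Q278.YH

/-!
# A supercongruence for a sum of squared binomial coefficients at `-1/3`
-/

set_option autoImplicit false

namespace Pool.Agent.Results.MP_2293c7_nt.Full

open Finset

/-- the binomial coefficient `a (a - 1) ... (a - k + 1) / k!` -/
def gbinom (a : ℚ) (k : ℕ) : ℚ := (∏ i ∈ range k, (a - (i : ℚ))) / (k.factorial : ℚ)

theorem gbinom_eq (k : ℕ) : gbinom (-1 / 3) k ^ 2 * 9 ^ k = Pool.Agent.Q278.YA.g 0 k := by
  induction k with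
  | zero => simp [gbinom, Pool.Agent.Q278.YA.g]
  | succ k ih =>
    have h1 : ((k : ℚ) + 1) ≠ 0 := by positivity
    have h2 : ((k.factorial : ℕ) : ℚ) ≠ 0 := by
      exact_mod_cast k.factorial_ne_zero
    unfold gbinom Pool.Agent.Q278.YA.g at ih ⊢
    rw [prod_range_succ, prod_range_succ, ← ih, Nat.factorial_succ]
    push_cast
    set P := ∏ i ∈ range k, ((-1 : ℚ) / 3 - (i : ℚ))
    have h3 : (2 * (k : ℚ) + 2 - 0) = 2 * ((k : ℚ) + 1) := by ring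
    rw [h3]
    field_simp
    ring

open Pool.Agent.Q278.YC Pool.Agent.Q267.CDE Q278.PI in
/-- For every prime `p ≡ 1 mod 3` and `4p = L² + 27M²` with `L ≡ 2 mod 3`:
`∑_{k<p} C(-1/3, k)² 9^k ≡ L - p/L mod p²`. -/
theorem result (p : ℕ) (hp : p.Prime) (h3 : p % 3 = 1) (L M : ℤ)
    (h4 : 4 * (p : ℤ) = L ^ 2 + 27 * M ^ 2) (hL : L % 3 = 2) :
    ¬ p ∣ (∑ k ∈ range p, gbinom (-1 / 3) k ^ 2 * 9 ^ k).den ∧
    ¬ p ∣ ((L : ℚ) - (p : ℚ) / (L : ℚ)).den ∧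
    (p : ℤ) ^ 2 ∣ ((∑ k ∈ range p, gbinom (-1 / 3) k ^ 2 * 9 ^ k) -
      ((L : ℚ) - (p : ℚ) / (L : ℚ))).num := by
  have : Fact p.Prime := ⟨hp⟩
  obtain ⟨r, hr⟩ : ∃ r, p = 6 * r + 1 := by
    have h5 : p % 2 = 1 := hp.eq_two_or_odd.resolve_left (by
      rintro rfl
      omega)
    exact ⟨p / 6, by omega⟩
  have hL' : (3 : ℤ) ∣ L - 2 := by omega
  have hnd := L_nd hr L M h4 hL'
  have e1 : ∑ k ∈ range p, gbinom (-1 / 3) k ^ 2 * 9 ^ k = ((GO p 0 : O p) : ℚ) := by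
    have h6 := GO_coe hr 0
    rw [zero_mul] at h6
    rw [h6]
    refine sum_congr rfl fun k _ => ?_
    rw [gbinom_eq k]
    simp
  have e2 : (L : ℚ) - (p : ℚ) / (L : ℚ) = (((L : O p) - (p : O p) * invI p L : O p) : ℚ) := by
    push_cast
    rw [invI_coe p L hnd]
    rfl
  rw [e1, e2]
  refine ⟨(GO p 0).2, ((L : O p) - (p : O p) * invI p L).2, ?_⟩
  apply cong_of_res2
  rw [GO_zero hr, map_sub, map_mul, map_intCast, map_natCast]
  obtain ⟨-, c2⟩ := CC_rel hr L M h4 hL'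
  have h7 := res2_invI p L hnd
  have hu := isUnit_int p L hnd
  apply hu.mul_left_cancel
  linear_combination c2 + (p : R p) * h7

end Pool.Agent.Results.MP_2293c7_nt.Full
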